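import Pool.Agent.H.MP_3adc02_co.tr.Dig

/-!
# Splitting a 2k-dijoin in digraphs with few source and sink components

Digraphs are given, as in the frozen statement, by maps `tail, head : Fin m → Fin n` (parallel arcs
and loops are allowed).  Let every vertex be reachable from some vertex of `S` and let every vertex
reach some vertex of `T` (so there are at most `|S|` source components and at most `|T|` sink
components).  If `2 ^ a ≤ k` and `C(|S|, 2) + C(|T|, 2) ≤ 2 ^ (a + 2) + 1`, then every `2k`-dijoin
can be partitioned into two `k`-dijoins.  For all `k ≥ 1` the condition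
`C(|S|, 2) + C(|T|, 2) ≤ 2k + 3` suffices.

Paper proof (modules `Pool.Agent.H.MP_3adc02_co.fs` and `Pool.Agent.H.MP_3adc02_co.tr`).  It
suffices to find a graph on the vertex set with the parity of the net outdegrees `x` of `J` in which
every dicut shore `X` is left by at most `x(X) - 2k` edges.  Such graphs are glued along tight
shores (`x(X) = 2k`); one unit of net outdegree may be moved along a comparable pair not separated
by a tight shore; and if `u` has net outdegree at most zero and everything strictly below `u` is
below `w`, then `u` may be put below `w` (and dually).  When nothing of this is possible, the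
predecessors of an odd point `u` with negative net outdegree are at least two tight sources.
Trimming: choose sets `B(u)` of at least two predecessors, one for each such point `u`, with
`x(X) ≥ 2k + #{u ∉ X : B(u) ⊆ X}` for all shores `X`, of minimal total size.  By uncrossing every
`B(u)` is a pair of sources.  All points `u` with the same pair are replaced by one new point, so at
most `C(|S|, 2)` odd points remain on this side; dually for the positive ones.  The theorem on few
odd vertices gives a graph for the new structure, and points with the same pair are joined to each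
other to get back a graph for the old one.
-/

namespace Pool.Agent.Results.MP_3adc02_co.FewComponents

open Finset

/-- `J` contains at least `k` arcs of every directed cut: it is a `k`-dijoin. -/
def IsDijoin {n m : ℕ} (tail head : Fin m → Fin n) (k : ℕ) (J : Finset (Fin m)) : Prop :=
  ∀ U : Finset (Fin n), U.Nonempty → U ≠ Finset.univ → (∀ e : Fin m, head e ∈ U → tail e ∈ U) →
    k ≤ (J.filter (fun e => tail e ∈ U ∧ head e ∉ U)).card

/-- There is a directed path from `u` to `v`. -/
def Reach {n m : ℕ} (tail head : Fin m → Fin n) (u v : Fin n) : Prop :=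
  Relation.ReflTransGen (fun a b => ∃ e, tail e = a ∧ head e = b) u v

/-- Let every vertex be reachable from `S` and let every vertex reach `T`, `2 ^ a ≤ k` and
`C(|S|, 2) + C(|T|, 2) ≤ 2 ^ (a + 2) + 1`.  Then every `2k`-dijoin can be partitioned into two
`k`-dijoins. -/
theorem result :
    ∀ a k : ℕ, 2 ^ a ≤ k → ∀ (n m : ℕ) (tail head : Fin m → Fin n) (S T : Finset (Fin n)),
      (∀ v, ∃ s ∈ S, Reach tail head s v) → (∀ v, ∃ t ∈ T, Reach tail head v t) →
      S.card.choose 2 + T.card.choose 2 ≤ 2 ^ (a + 2) + 1 →
      ∀ J : Finset (Fin m), IsDijoin tail head (2 * k) J →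
        ∃ J₁ ⊆ J, IsDijoin tail head k J₁ ∧ IsDijoin tail head k (J \ J₁) :=
  fun a k hk _ _ tail head S T hS hT hST J hJ =>
    Dj3.tr_few_sets tail head J a k hk hJ S T hST hS hT

/-- For all `k ≥ 1`: if `C(|S|, 2) + C(|T|, 2) ≤ 2k + 3` then every `2k`-dijoin can be partitioned
into two `k`-dijoins. -/
theorem splitting (k : ℕ) (hk : 1 ≤ k) {n m : ℕ} (tail head : Fin m → Fin n)
    (S T : Finset (Fin n)) (hS : ∀ v, ∃ s ∈ S, Reach tail head s v)
    (hT : ∀ v, ∃ t ∈ T, Reach tail head v t)
    (hST : S.card.choose 2 + T.card.choose 2 ≤ 2 * k + 3) (J : Finset (Fin m))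
    (hJ : IsDijoin tail head (2 * k) J) :
    ∃ J₁ ⊆ J, IsDijoin tail head k J₁ ∧ IsDijoin tail head k (J \ J₁) := by
  refine result (Nat.log 2 k) k (Nat.pow_log_le_self 2 (by omega)) n m tail head S T hS hT ?_ J hJ
  have h1 : k < 2 ^ (Nat.log 2 k + 1) := Nat.lt_pow_succ_log_self (by norm_num) k
  have h2 : 2 ^ (Nat.log 2 k + 2) = 2 * 2 ^ (Nat.log 2 k + 1) := by ring
  omega

/-- For `c` source and `c` sink components `2k + 3 ≥ c (c - 1)` suffices. -/
theorem splitting_square (c k : ℕ) (hk : 1 ≤ k) (hc : c * (c - 1) ≤ 2 * k + 3) {n m : ℕ}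
    (tail head : Fin m → Fin n) (S T : Finset (Fin n))
    (hS : ∀ v, ∃ s ∈ S, Reach tail head s v) (hT : ∀ v, ∃ t ∈ T, Reach tail head v t)
    (hSc : S.card ≤ c) (hTc : T.card ≤ c) (J : Finset (Fin m))
    (hJ : IsDijoin tail head (2 * k) J) :
    ∃ J₁ ⊆ J, IsDijoin tail head k J₁ ∧ IsDijoin tail head k (J \ J₁) := by
  refine splitting k hk tail head S T hS hT ?_ J hJ
  have h1 := Nat.choose_le_choose 2 hSc
  have h2 := Nat.choose_le_choose 2 hTc
  have h4 : 2 * c.choose 2 = c * (c - 1) := by
    rw [Nat.choose_two_right]
    exact Nat.mul_div_cancel' (Nat.even_mul_pred_self c).two_dvd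
  omega

end Pool.Agent.Results.MP_3adc02_co.FewComponents
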