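import Pool.Agent.H.MP_3adc02_co.helper68.Fin3

/-!
# Splitting a 2k-dijoin with few vertices of odd degree between its minimum directed cuts

Digraphs are given, as in the frozen statement, by maps `tail, head : Fin m → Fin n` (parallel
arcs and loops are allowed).  A set `U` of vertices which is nonempty, different from the whole
vertex set and entered by no arc defines a directed cut, the set of the arcs leaving `U`.
-/

namespace Pool.Agent.Results.MP_3adc02_co.OddVertices

open Finset

/-- the degree of `v` in the arc set `J` (loops count twice) -/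
def deg {n m : ℕ} (tail head : Fin m → Fin n) (J : Finset (Fin m)) (v : Fin n) : ℕ :=
  (J.filter (fun e => tail e = v)).card + (J.filter (fun e => head e = v)).card

/-- no directed cut with exactly `2 * k` arcs of `J` separates `u` and `v` -/
def Together {n m : ℕ} (tail head : Fin m → Fin n) (J : Finset (Fin m)) (k : ℕ) (u v : Fin n) :
    Prop :=
  ∀ U : Finset (Fin n), U.Nonempty → U ≠ Finset.univ → (∀ e : Fin m, head e ∈ U → tail e ∈ U) →
    (J.filter (fun e => tail e ∈ U ∧ head e ∉ U)).card = 2 * k → (u ∈ U ↔ v ∈ U)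

theorem mem_od {n m : ℕ} (tail head : Fin m → Fin n) (J : Finset (Fin m)) (v : Fin n) :
    v ∈ Dj.od (Dj.nt tail head J) ↔ Odd (deg tail head J v) := by
  have h : Dj.nt tail head J = fun v => ((J.filter (fun e => tail e = v)).card : ℤ) -
      ((J.filter (fun e => head e = v)).card : ℤ) := by
    funext v
    unfold Dj.nt
    rw [Finset.sum_sub_distrib, Finset.card_filter, Finset.card_filter]
    push_cast
    unfold Dj.ind
    simp only [Finset.mem_singleton]
  rw [Dj.mem_od, h]
  unfold deg
  rw [← even_iff_two_dvd, Int.not_even_iff_odd, Int.odd_sub, Nat.odd_add]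
  norm_cast

/-- Let `2 ^ a ≤ k` and let `J` be a `2k`-dijoin.  If for every vertex `v` at most `2 ^ (a + 2)`
vertices `u` of odd degree in `J` are not separated from `v` by a directed cut with exactly `2k`
arcs of `J`, then `J` splits into two `k`-dijoins. -/
theorem result :
    ∀ a k : ℕ, 2 ^ a ≤ k → ∀ (n m : ℕ) (tail head : Fin m → Fin n) (J : Finset (Fin m)),
      (∀ U : Finset (Fin n), U.Nonempty → U ≠ Finset.univ →
          (∀ e : Fin m, head e ∈ U → tail e ∈ U) →
          2 * k ≤ (J.filter (fun e => tail e ∈ U ∧ head e ∉ U)).card) →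
      (∀ v : Fin n, {u | Odd (deg tail head J u) ∧ Together tail head J k u v}.ncard ≤
          2 ^ (a + 2)) →
      ∃ J₁ : Finset (Fin m), J₁ ⊆ J ∧
        (∀ U : Finset (Fin n), U.Nonempty → U ≠ Finset.univ →
            (∀ e : Fin m, head e ∈ U → tail e ∈ U) →
            k ≤ (J₁.filter (fun e => tail e ∈ U ∧ head e ∉ U)).card) ∧
        (∀ U : Finset (Fin n), U.Nonempty → U ≠ Finset.univ →
            (∀ e : Fin m, head e ∈ U → tail e ∈ U) →
            k ≤ ((J \ J₁).filter (fun e => tail e ∈ U ∧ head e ∉ U)).card) := by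
  classical
  intro a k hk n m tail head J hJ h
  obtain ⟨J₁, h1, h3⟩ := Dj2.splitting2 tail head J a k hk
    (fun U hU => hJ U (Dj.mem_dic.1 hU).1 (Dj.mem_dic.1 hU).2.1 (Dj.mem_dic.1 hU).2.2)
    (fun v => by
      have h4 := h v
      have h5 : {u | Odd (deg tail head J u) ∧ Together tail head J k u v} =
          (((Dj.od (Dj.nt tail head J)).filter
            (fun u => Dj2.Tog tail head J k u v) : Finset (Fin n)) : Set (Fin n)) := by
        ext u
        rw [Finset.mem_coe, mem_filter, mem_od]
        refine and_congr Iff.rfl ⟨fun h6 U hU hc => ?_, fun h6 U hU1 hU2 hU3 hc => ?_⟩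
        · exact h6 U (Dj.mem_dic.1 hU).1 (Dj.mem_dic.1 hU).2.1 (Dj.mem_dic.1 hU).2.2 hc
        · exact h6 U (Dj.mem_dic.2 ⟨hU1, hU2, hU3⟩) hc
      rw [h5, Set.ncard_coe_finset] at h4
      convert h4)
  exact ⟨J₁, h1, fun U hU1 hU2 hU3 => (h3 U (Dj.mem_dic.2 ⟨hU1, hU2, hU3⟩)).1,
    fun U hU1 hU2 hU3 => (h3 U (Dj.mem_dic.2 ⟨hU1, hU2, hU3⟩)).2⟩

end Pool.Agent.Results.MP_3adc02_co.OddVertices
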