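import Pool.Agent.H.MP_3adc02_co.kt.Fin

/-!
# Dijoins whose end arcs have common ancestors and common descendants

Digraphs are given, as in the frozen statement, by maps `tail, head : Fin m → Fin n` (parallel arcs
and loops are allowed).  Let `J` be a `τ`-dijoin and let `s₀, t₀` be vertices such that every source
component sends at least `τ` arcs of `J` to vertices reachable from `s₀`, and every sink component
receives at least `τ` arcs of `J` from vertices that reach `t₀`.  Then `J` can be partitioned into
`τ` dijoins.  There may be any number of source and sink components.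

Paper proof (modules `Pool.Agent.H.MP_3adc02_co.kt`).  By Hall's theorem there is a permutation `p`
of `J` such that `tail e` reaches `head (p e)`, except for `τ` arcs `e` leaving the source component
below `s₀`, which `p` maps to arcs entering the sink component above `t₀`.  The bipartite graphs
with the edges `(tail e, head e)` and `(tail e, head (p e))` have equal degrees; split all vertices
into vertices of degree `τ` and one rest vertex and join the rest vertices of the two graphs by
links.  The resulting graph is bipartite and `τ`-regular, and König's theorem colours it so that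
both graphs have equal degrees in every colour.  So every colour class of `J` meets every dicut that
separates the two components, and the arcs of the hypothesis, collected in one vertex of degree `τ`
for every source and sink component, serve the other dicuts.
-/

namespace Pool.Agent.Results.MP_3adc02_co.RootPair

open Finset

/-- `J` contains at least `k` arcs of every directed cut: it is a `k`-dijoin. -/
def IsDijoin {n m : ℕ} (tail head : Fin m → Fin n) (k : ℕ) (J : Finset (Fin m)) : Prop :=
  ∀ U : Finset (Fin n), U.Nonempty → U ≠ Finset.univ → (∀ e : Fin m, head e ∈ U → tail e ∈ U) →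
    k ≤ (J.filter (fun e => tail e ∈ U ∧ head e ∉ U)).card

/-- There is a directed path from `u` to `v`. -/
def Reach {n m : ℕ} (tail head : Fin m → Fin n) (u v : Fin n) : Prop :=
  Relation.ReflTransGen (fun a b => ∃ e, tail e = a ∧ head e = b) u v

/-- `u` lies in a source component: every vertex that reaches `u` is reached from `u`. -/
def InSource {n m : ℕ} (tail head : Fin m → Fin n) (u : Fin n) : Prop :=
  ∀ w, Reach tail head w u → Reach tail head u w

/-- `u` lies in a sink component: every vertex reached from `u` reaches `u`. -/
def InSink {n m : ℕ} (tail head : Fin m → Fin n) (u : Fin n) : Prop :=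
  ∀ w, Reach tail head u w → Reach tail head w u

open scoped Classical in
/-- Let `J` be a `τ`-dijoin, `τ ≥ 1`, and `s₀, t₀` vertices such that at least `τ` arcs of `J` go
from each source component to vertices reachable from `s₀`, and at least `τ` arcs of `J` go to each
sink component from vertices that reach `t₀`.  Then `J` can be partitioned into `τ` dijoins (the
classes of the colouring `f`); so the union of any `j` classes is a `j`-dijoin. -/
theorem result :
    ∀ (n m : ℕ) (tail head : Fin m → Fin n) (τ : ℕ) (J : Finset (Fin m)) (s₀ t₀ : Fin n),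
      0 < τ → IsDijoin tail head τ J →
      (∀ u, InSource tail head u →
        τ ≤ (J.filter (fun e => Reach tail head (tail e) u ∧ Reach tail head s₀ (head e))).card) →
      (∀ u, InSink tail head u →
        τ ≤ (J.filter (fun e => Reach tail head u (head e) ∧ Reach tail head (tail e) t₀)).card) →
      ∃ f : Fin m → Fin τ, ∀ C : Finset (Fin τ),
        IsDijoin tail head C.card (J.filter (fun e => f e ∈ C)) := by
  intro n m tail head τ J s₀ t₀ hτ hJ ha hb
  obtain ⟨f, hf⟩ := H.MP_3adc02_co.Kt.digraph tail head τ hτ J
    (fun U hU1 hU2 hU3 => by convert hJ U hU1 hU2 hU3) (Reach tail head) (fun u v => Iff.rfl)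
    s₀ t₀ ha hb
  exact ⟨f, fun C U hU1 hU2 hU3 => by convert hf C U hU1 hU2 hU3⟩

open scoped Classical in
/-- The form of Q1: under the same hypothesis with `τ = 2k` the dijoin `J` can be partitioned into
two `k`-dijoins. -/
theorem splitting {n m : ℕ} (tail head : Fin m → Fin n) (k : ℕ) (J : Finset (Fin m))
    (s₀ t₀ : Fin n) (hJ : IsDijoin tail head (2 * k) J)
    (ha : ∀ u, InSource tail head u → 2 * k ≤
      (J.filter (fun e => Reach tail head (tail e) u ∧ Reach tail head s₀ (head e))).card)
    (hb : ∀ u, InSink tail head u → 2 * k ≤
      (J.filter (fun e => Reach tail head u (head e) ∧ Reach tail head (tail e) t₀)).card) :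
    ∃ J₁ ⊆ J, IsDijoin tail head k J₁ ∧ IsDijoin tail head k (J \ J₁) := by
  rcases Nat.eq_zero_or_pos k with rfl | hk
  · exact ⟨∅, Finset.empty_subset _, fun _ _ _ _ => Nat.zero_le _, fun _ _ _ _ => Nat.zero_le _⟩
  obtain ⟨f, hf⟩ := result n m tail head (2 * k) J s₀ t₀ (by omega) hJ ha hb
  have hC : ((univ : Finset (Fin (2 * k))).filter (fun i => i.1 < k)).card = k := by
    rw [Fin.card_filter_val_lt]
    omega
  have hC2 : ((univ : Finset (Fin (2 * k))).filter (fun i => ¬ i.1 < k)).card = k := by
    have h1 := Finset.card_filter_add_card_filter_not (s := (univ : Finset (Fin (2 * k))))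
      (fun i => i.1 < k)
    rw [hC, Finset.card_univ, Fintype.card_fin] at h1
    omega
  refine ⟨J.filter (fun e => (f e).1 < k), Finset.filter_subset _ _, ?_, ?_⟩
  · have h1 := hf ((univ : Finset (Fin (2 * k))).filter (fun i => i.1 < k))
    rw [hC] at h1
    have h2 : J.filter (fun e => f e ∈ (univ : Finset (Fin (2 * k))).filter (fun i => i.1 < k)) =
        J.filter (fun e => (f e).1 < k) := by
      ext e
      simp
    rw [h2] at h1
    exact h1
  · have h1 := hf ((univ : Finset (Fin (2 * k))).filter (fun i => ¬ i.1 < k))
    rw [hC2] at h1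
    have h2 : J.filter (fun e => f e ∈ (univ : Finset (Fin (2 * k))).filter
        (fun i => ¬ i.1 < k)) = J \ J.filter (fun e => (f e).1 < k) := by
      ext e
      simp only [Finset.mem_filter, Finset.mem_univ, true_and, Finset.mem_sdiff]
      exact ⟨fun h => ⟨h.1, fun h3 => h.2 h3.2⟩, fun h => ⟨h.1, fun h3 => h.2 ⟨h.1, h3⟩⟩⟩
    rw [h2] at h1
    exact h1

open scoped Classical in
/-- A special case: if all heads of arcs of `J` are reachable from `s₀` and all tails reach `t₀`,
then the `τ`-dijoin `J` can be partitioned into `τ` dijoins. -/
theorem heads_tails {n m : ℕ} (tail head : Fin m → Fin n) (τ : ℕ) (J : Finset (Fin m))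
    (s₀ t₀ : Fin n) (hτ : 0 < τ) (hJ : IsDijoin tail head τ J)
    (h1 : ∀ e ∈ J, Reach tail head s₀ (head e)) (h2 : ∀ e ∈ J, Reach tail head (tail e) t₀) :
    ∃ f : Fin m → Fin τ, ∀ C : Finset (Fin τ),
      IsDijoin tail head C.card (J.filter (fun e => f e ∈ C)) := by
  by_cases hs : ∃ U : Finset (Fin n), U.Nonempty ∧ U ≠ univ ∧ ∀ e : Fin m, head e ∈ U → tail e ∈ U
  · obtain ⟨U₀, hU1, hU2, hU3⟩ := hs
    have hcl : ∀ U : Finset (Fin n), (∀ e : Fin m, head e ∈ U → tail e ∈ U) →
        ∀ u v, Reach tail head u v → v ∈ U → u ∈ U := by
      intro U hU u v h3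
      induction h3 with
      | refl => exact id
      | tail hab hbc ih =>
        intro hc
        obtain ⟨e, rfl, rfl⟩ := hbc
        exact ih (hU e hc)
    obtain ⟨a, ha⟩ := hU1
    obtain ⟨b, hb⟩ : ∃ b, b ∉ U₀ := by
      by_contra hno
      push Not at hno
      exact hU2 (Finset.eq_univ_iff_forall.2 hno)
    apply result n m tail head τ J s₀ t₀ hτ hJ
    · intro u hu
      have h4 := hJ (univ.filter (fun w => Reach tail head w u))
        ⟨u, Finset.mem_filter.2 ⟨Finset.mem_univ _, Relation.ReflTransGen.refl⟩⟩ (fun h5 => by
          have h6 : b ∈ univ.filter (fun w => Reach tail head w u) := by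
            rw [h5]
            exact Finset.mem_univ _
          have h7 : a ∈ univ.filter (fun w => Reach tail head w u) := by
            rw [h5]
            exact Finset.mem_univ _
          have h8 := hu a (Finset.mem_filter.1 h7).2
          exact hb (hcl U₀ hU3 b a ((Finset.mem_filter.1 h6).2.trans h8) ha))
        (fun e he => Finset.mem_filter.2 ⟨Finset.mem_univ _, Relation.ReflTransGen.head
          ⟨e, rfl, rfl⟩ (Finset.mem_filter.1 he).2⟩)
      refine h4.trans (Finset.card_le_card fun e he => ?_)
      obtain ⟨h5, h6, -⟩ := Finset.mem_filter.1 he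
      exact Finset.mem_filter.2 ⟨h5, (Finset.mem_filter.1 h6).2, h1 e h5⟩
    · intro u hu
      have h4 := hJ (univ.filter (fun w => ¬ Reach tail head u w)) (by
          by_contra hno
          rw [Finset.not_nonempty_iff_eq_empty, Finset.filter_eq_empty_iff] at hno
          have h6 := not_not.1 (hno (Finset.mem_univ b))
          have h7 := not_not.1 (hno (Finset.mem_univ a))
          exact hb (hcl U₀ hU3 b a ((hu b h6).trans h7) ha))
        (fun h5 => by
          have h6 : u ∈ univ.filter (fun w => ¬ Reach tail head u w) := by
            rw [h5]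
            exact Finset.mem_univ _
          exact (Finset.mem_filter.1 h6).2 Relation.ReflTransGen.refl)
        (fun e he => Finset.mem_filter.2 ⟨Finset.mem_univ _, fun h7 =>
          (Finset.mem_filter.1 he).2 (Relation.ReflTransGen.tail h7 ⟨e, rfl, rfl⟩)⟩)
      refine h4.trans (Finset.card_le_card fun e he => ?_)
      obtain ⟨h5, -, h6⟩ := Finset.mem_filter.1 he
      refine Finset.mem_filter.2 ⟨h5, ?_, h2 e h5⟩
      by_contra h7
      exact h6 (Finset.mem_filter.2 ⟨Finset.mem_univ _, h7⟩)
  · exact ⟨fun _ => ⟨0, hτ⟩, fun C U hU1 hU2 hU3 => absurd ⟨U, hU1, hU2, hU3⟩ hs⟩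

end Pool.Agent.Results.MP_3adc02_co.RootPair
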