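import Pool.Agent.H.MP_3adc02_co.ts.Fin

/-!
# Dijoins in digraphs with two sources or two sinks

Digraphs are given, as in the frozen statement, by maps `tail, head : Fin m → Fin n` (parallel arcs
and loops are allowed).  If some two vertices together reach every vertex, or every vertex reaches
one of some two vertices (at most two source components, or at most two sink components), then every
`τ`-dijoin can be partitioned into `τ` dijoins, and every `2k`-dijoin into two `k`-dijoins.

Paper proof (modules `Pool.Agent.H.MP_3adc02_co.ts`).  The problem is reduced to digraphs with two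
root vertices in which every vertex lies below the first root only, the second root only, or both,
and has exactly `τ` incoming arcs; one wants `τ` disjoint spanning branchings such that the
components of both roots reach a common vertex.  Vertices with fewer than `τ` outgoing arcs are split
off.  Otherwise start from disjoint branchings (Edmonds, strong form) and exchange two colours at a
leaf exit of a bad component; a descent along the branching shows that one of two leaf exits can be
used without destroying the component of the other root.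
-/

namespace Pool.Agent.Results.MP_3adc02_co.TwoSources

open Finset

/-- `J` contains at least `k` arcs of every directed cut: it is a `k`-dijoin. -/
def IsDijoin {n m : ℕ} (tail head : Fin m → Fin n) (k : ℕ) (J : Finset (Fin m)) : Prop :=
  ∀ U : Finset (Fin n), U.Nonempty → U ≠ Finset.univ → (∀ e : Fin m, head e ∈ U → tail e ∈ U) →
    k ≤ (J.filter (fun e => tail e ∈ U ∧ head e ∉ U)).card

/-- There is a directed path from `u` to `v`. -/
def Reach {n m : ℕ} (tail head : Fin m → Fin n) (u v : Fin n) : Prop :=
  Relation.ReflTransGen (fun a b => ∃ e, tail e = a ∧ head e = b) u v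

/-- Let `D` be a digraph in which two vertices together reach every vertex, or two vertices are
together reached from every vertex.  Then every `τ`-dijoin `J`, `τ ≥ 1`, can be partitioned into `τ`
dijoins (the classes of the colouring `f`); so the union of any `j` classes is a `j`-dijoin. -/
theorem result :
    ∀ (n m : ℕ) (tail head : Fin m → Fin n),
      ((∃ s₁ s₂, ∀ v, Reach tail head s₁ v ∨ Reach tail head s₂ v) ∨
        ∃ t₁ t₂, ∀ v, Reach tail head v t₁ ∨ Reach tail head v t₂) →
      ∀ (τ : ℕ) (J : Finset (Fin m)), 0 < τ → IsDijoin tail head τ J →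
        ∃ f : Fin m → Fin τ, ∀ C : Finset (Fin τ),
          IsDijoin tail head C.card (J.filter (fun e => f e ∈ C)) := by
  classical
  intro n m tail head hD τ J hτ hJ
  obtain ⟨F, h1, h2, h3⟩ : ∃ F : Fin τ → Finset (Fin m), (∀ c, F c ⊆ J) ∧
        (∀ c c', c ≠ c' → Disjoint (F c) (F c')) ∧ ∀ c, Ts.Dij tail head 1 (F c) := by
    rcases hD with h | h
    · exact Ts.two_sources tail head J hJ h
    · exact Ts.two_sinks tail head J hJ h
  refine ⟨fun e => if h : ∃ c, e ∈ F c then h.choose else ⟨0, hτ⟩, fun C U hU1 hU2 hU3 => ?_⟩
  have hex : ∀ c, ∃ e ∈ F c, tail e ∈ U ∧ head e ∉ U := by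
    intro c
    have h4 := h3 c U hU1 hU2 hU3
    obtain ⟨e, he⟩ := Finset.card_pos.1 h4
    rw [Finset.mem_filter] at he
    exact ⟨e, he.1, he.2⟩
  choose g hg1 hg2 using hex
  have hcol : ∀ c e, e ∈ F c → (if h : ∃ c, e ∈ F c then h.choose else ⟨0, hτ⟩) = c := by
    intro c e he
    have hex : ∃ c, e ∈ F c := ⟨c, he⟩
    rw [dif_pos hex]
    by_contra hne
    exact Finset.disjoint_left.1 (h2 _ _ hne) hex.choose_spec he
  refine Finset.card_le_card_of_injOn g (fun c hc => ?_) (fun c _ c' _ hcc => ?_)
  · rw [Finset.mem_coe, Finset.mem_filter, Finset.mem_filter]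
    refine ⟨⟨h1 c (hg1 c), ?_⟩, hg2 c⟩
    have h5 := hcol c (g c) (hg1 c)
    simp only [h5]
    exact hc
  · by_contra hne
    exact Finset.disjoint_left.1 (h2 _ _ hne) (hg1 c) (hcc ▸ hg1 c')

/-- The form of Q1: under the same hypothesis every `2k`-dijoin can be partitioned into two
`k`-dijoins. -/
theorem splitting {n m : ℕ} (tail head : Fin m → Fin n)
    (hD : (∃ s₁ s₂, ∀ v, Reach tail head s₁ v ∨ Reach tail head s₂ v) ∨
        ∃ t₁ t₂, ∀ v, Reach tail head v t₁ ∨ Reach tail head v t₂)
    (k : ℕ) (J : Finset (Fin m)) (hJ : IsDijoin tail head (2 * k) J) :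
    ∃ J₁ ⊆ J, IsDijoin tail head k J₁ ∧ IsDijoin tail head k (J \ J₁) := by
  have key : ∃ F : Fin (2 * k) → Finset (Fin m), (∀ c, F c ⊆ J) ∧
        (∀ c c', c ≠ c' → Disjoint (F c) (F c')) ∧ ∀ c, Ts.Dij tail head 1 (F c) := by
    rcases hD with h | h
    · exact Ts.two_sources tail head J hJ h
    · exact Ts.two_sinks tail head J hJ h
  exact Ts.two_split tail head J key

end Pool.Agent.Results.MP_3adc02_co.TwoSources
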